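import Pool.Agent.R494.CN4

/-!
# Tate-Shafarevich groups of `y² = x³ - N² x` for the products `N` of consecutive primes

Let `E_N : y² = x³ - N² x` and let `r ≡ 3` modulo `8` be a residue class modulo `m`, `8 ∣ m`, prime to `m`. For every `k`
there are infinitely many blocks of `k` consecutive primes `p_1 < … < p_k` of the class, contained in intervals of bounded
length, such that for all the `2 ^ k` products `N` of different `p_i` the group `E_N(ℚ)` is finite and `Ш(E_N/ℚ)[2^∞] = 0`, and such that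
over the field `K = ℚ(√-1, √p_1, …, √p_k)`, of degree `2 ^ (k + 1)`, the group `E_1(K)` is finite and `Ш(E_1/K)[2^∞]` is
finite and killed by `2 ^ (k + 1)`.

Proof. By the theorem of Maynard and Tao, applied to linear forms whose values have prescribed quadratic symbols with
respect to each other, there are infinitely many blocks of consecutive primes of the class each of which is not a square
modulo the smaller ones. For such primes the `2`-Selmer group of `E_N` has four elements (Iskra 1996 for the rank): it is computed here with the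
local classes at the primes `p_i`, the real place, and the parity of the valuations elsewhere, by descending induction on the
primes. The curve over `K` is compared with its twists (library of helper841).
-/

set_option autoImplicit false

namespace Pool.Agent.Results.MP_e23604_nt.ConsecutivePrimeTwists

/-- the curve `y² = x³ + A x + B` over `F` -/
def E (A B : ℤ) (F : Type) [Field F] : WeierstrassCurve F :=
  { a₁ := 0, a₂ := 0, a₃ := 0, a₄ := (A : F), a₆ := (B : F) }

/-- `E_N(ℚ)` is finite and `Ш(E_N/ℚ)` has no nonzero element of `2`-power order, `E_N : y² = x³ - N² x` -/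
def Trivial2 (N : ℕ) : Prop :=
  Finite (E (-(N : ℤ) ^ 2) 0 ℚ).toAffine.Point ∧
    ∀ (j : ℕ) (x : Pool.Agent.TH841.SH.D.Sha (E (-(N : ℤ) ^ 2) 0 ℚ)), (2 ^ j : ℕ) • x = 0 → x = 0

/-- `K = ℚ(√d_1, …, √d_n)` -/
def IsMultiquadratic {n : ℕ} (d : Fin n → ℤ) (K : Type) [Field K] [NumberField K] : Prop :=
  ∃ x : Fin n → K, (∀ i, x i ^ 2 = (d i : K)) ∧ IntermediateField.adjoin ℚ (Set.range x) = ⊤

/-- for `E_1 : y² = x³ - x`: the group `E_1(K)` is finite, and `Ш(E_1/K)[2^∞]` is finite and killed by `2 ^ n` -/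
def FiniteOver (K : Type) [Field K] [NumberField K] (n : ℕ) : Prop :=
  Finite (E (-1) 0 K).toAffine.Point ∧
  {x : Pool.Agent.TH841.NF.D.Sha (E (-1) 0 K) | ∃ j : ℕ, (2 ^ j : ℕ) • x = 0}.Finite ∧
  ∀ (j : ℕ) (x : Pool.Agent.TH841.NF.D.Sha (E (-1) 0 K)),
    (2 ^ j : ℕ) • x = 0 → (2 ^ n : ℕ) • x = 0

/-- the `k + 1` consecutive primes from the one of index `s` on are `≡ r` modulo `m` and contained in an
interval of length `C` -/
def Block (m r k C s : ℕ) : Prop :=
  Nat.nth Nat.Prime (s + k) ≤ Nat.nth Nat.Prime s + C ∧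
    ∀ i ≤ k, Nat.nth Nat.Prime (s + i) ≡ r [MOD m]

theorem result (m r : ℕ) (hm : 0 < m) (h8 : 8 ∣ m) (hr : r.Coprime m) (hr3 : r % 8 = 3) (k : ℕ) :
    ∃ C : ℕ, {s : ℕ | Block m r k C s ∧
      (∀ T : Finset (Fin k), Trivial2 (∏ i ∈ T, Nat.nth Nat.Prime (s + i))) ∧
      ∀ (K : Type) [Field K] [NumberField K],
        IsMultiquadratic (Fin.cons (-1) (fun i : Fin k => (Nat.nth Nat.Prime (s + i) : ℤ)) :
          Fin (k + 1) → ℤ) K →
        Module.finrank ℚ K = 2 ^ (k + 1) ∧ FiniteOver K (k + 1)}.Infinite := by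
  classical
  obtain ⟨C, hC⟩ := R494.CN.consec m r hm h8 hr hr3 k
  refine ⟨C, ?_⟩
  rw [Set.infinite_iff_exists_gt]
  intro N0
  obtain ⟨s, hs, h1, h2, h3⟩ := hC N0
  have hmon : StrictMono (Nat.nth Nat.Prime) := Nat.nth_strictMono Nat.infinite_setOfPred_prime
  have hinj : Function.Injective (fun i : Fin k => Nat.nth Nat.Prime (s + i)) := by
    intro i j hij
    have := hmon.injective hij
    exact Fin.ext (by omega)
  refine ⟨s, ⟨⟨h1, h2⟩, fun T => ?_, fun K _ _ ⟨x, hx, hK⟩ => ?_⟩, hs⟩
  · obtain ⟨h4, h5⟩ := R494.CN.triv_fin (h3 T)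
    have e : ∏ q ∈ T.image (fun i : Fin k => Nat.nth Nat.Prime (s + i)), (q : ℤ) =
        ((∏ i ∈ T, Nat.nth Nat.Prime (s + i) : ℕ) : ℤ) := by
      rw [Finset.prod_image fun a _ b _ h => hinj h]
      push_cast
      rfl
    rw [e] at h4 h5
    exact ⟨h4, h5⟩
  · obtain ⟨h4, h5, h6, h7⟩ := R494.CN.field hinj (fun T => h3 _) (fun i => Nat.prime_nth_prime _) K x hx hK
    exact ⟨h4, h5, h6, h7⟩

end Pool.Agent.Results.MP_e23604_nt.ConsecutivePrimeTwists
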