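import Mathlib
import Pool.Agent.R419.CF.Low
import Pool.Agent.R419.CF.Weak

/-!
# The `3`-primary part of the Tate–Shafarevich groups of all cubic twists `x³ + y³ = D` with one prime
`≡ 2` mod `3`

`D` runs over all cube-free numbers `D = a b²` prime to `3`, not `±1` modulo `9`, with exactly one prime
factor `≡ 2` modulo `3`; every isomorphism class of curves `E_D : y² + D y = x³` of the class occurs
once (`E_D` is `3`-isogenous to `x³ + y³ = D`).  `E_D(ℚ)` is finite and `Ш(E_D)[3^∞] = 0` if and only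
if `D` does not split (a condition on cubic residues between the prime factors of `D`).  The proportion
of these `D` in the class tends exactly to `∏_{i ≥ 1} (1 - 3^{-i}) = 0.5601...`, and for each of them the
`L`-function is entire and `L(E_D, 1) ≠ 0`.

The arithmetic and the squarefree case are joint work of about forty agents, see
`Pool/Agent/Y703/CT/*.lean` and `Pool/Agent/Y703/CX/*.lean`; the extension of the exact proportion to all
cube-free `D` is `Pool/Agent/R419/CF/*.lean` (helper419).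
-/

set_option autoImplicit false

open scoped Classical

namespace Pool.Agent.Results.MP_e23604_nt.CubicTwistsCubeFree

/-- the `L`-function of the curve `y² = x³ - 432 D²`, which is isogenous to `E_D`, is entire and not
zero at `1`: there is an entire function equal to the Euler product over the primes `p ∤ 2 Δ` on
`Re s > 3 / 2`, and its value at `1` is not zero -/
def NonzeroL (D : ℕ) : Prop :=
  ∃ f : ℂ → ℂ, Differentiable ℂ f ∧
    (∀ s : ℂ, (3 : ℝ) / 2 < s.re → HasProd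
      (fun p : {p : ℕ // p.Prime ∧ ¬ ((p : ℤ) ∣ 2 * (4 * 0 ^ 3 + 27 * (-432 * (D : ℤ) ^ 2) ^ 2))} =>
        ((1 : ℂ)
          - ((((p.1 : ℤ) - (Nat.card {q : ZMod p.1 × ZMod p.1 //
                q.2 ^ 2 = q.1 ^ 3 + ((0 : ℤ) : ZMod p.1) * q.1 +
                  ((-432 * (D : ℤ) ^ 2 : ℤ) : ZMod p.1)} : ℤ)) : ℤ) : ℂ)
              * ((p.1 : ℂ) ^ (-s))
          + (p.1 : ℂ) ^ (1 - 2 * s))⁻¹) (f s)) ∧ f 1 ≠ 0

/-- the class: `D` cube-free, prime to `3`, not `±1` modulo `9`, exactly one prime factor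
congruent to `2` modulo `3` -/
def Class (D : ℕ) : Prop :=
  D ≠ 0 ∧ (∀ p : ℕ, p.Prime → ¬ p ^ 3 ∣ D) ∧ ¬ 3 ∣ D ∧ D % 9 ≠ 1 ∧ D % 9 ≠ 8 ∧
    ∃ q : ℕ, q.Prime ∧ q % 3 = 2 ∧ q ∣ D ∧ ∀ p : ℕ, p.Prime → p ∣ D → p ≠ q → p % 3 = 1

/-- `D` is not a product `d₀ d₁ d₂` of coprime factors, at least two of them different from `1`,
such that `d₁ d₂²`, `d₂ d₀²`, `d₀ d₁²` are cubes modulo the primes dividing `d₀`, `d₁`, `d₂` -/
def NoSplit (D : ℕ) : Prop :=
  ∀ d : ZMod 3 → ℕ, ∏ c, d c = D → (∀ c c', c ≠ c' → Nat.Coprime (d c) (d c')) →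
    (∀ (c : ZMod 3) (p : ℕ), p.Prime → p ∣ d c →
      ∃ x : ℤ, (p : ℤ) ∣ (d (c + 1) : ℤ) * (d (c + 2) : ℤ) ^ 2 - x ^ 3) →
    ∃ c, ∀ c', c' ≠ c → d c' = 1

/-- the curve `y² + D y = x³` over `ℚ` -/
def E (D : ℕ) : WeierstrassCurve ℚ := { a₁ := 0, a₂ := 0, a₃ := (D : ℚ), a₄ := 0, a₆ := 0 }

/-- `E_D(ℚ)` is finite and `Ш(E_D/ℚ)[3^∞] = 0` -/
def TrivialThree (D : ℕ) : Prop :=
  Finite (E D).toAffine.Point ∧
    ∀ (n : ℕ) (x : Pool.Agent.TH841.SH.D.Sha (E D)), 3 ^ n • x = 0 → x = 0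

theorem E_eq (D : ℕ) : Pool.Agent.Y703.CT.EQ (Pool.Agent.Y703.CT.WD D) = E D := by
  unfold Pool.Agent.Y703.CT.EQ Pool.Agent.Y703.CT.WD E WeierstrassCurve.map
  simp

theorem three_iff (D : ℕ) : TrivialThree D ↔ Pool.Agent.Y703.CT.Triv3 D := by
  unfold TrivialThree Pool.Agent.Y703.CT.Triv3
  rw [E_eq]

theorem class_iff (D : ℕ) : Class D ↔ Pool.Agent.Y703.CT.Cls D := by
  unfold Class Pool.Agent.Y703.CT.Cls Pool.Agent.Y703.CT.Base
  constructor
  · rintro ⟨h1, h2, h3, h4, h5, h6⟩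
    exact ⟨⟨h1, h3, h2⟩, h4, h5, h6⟩
  · rintro ⟨⟨h1, h3, h2⟩, h4, h5, h6⟩
    exact ⟨h1, h2, h3, h4, h5, h6⟩

theorem result :
    (∃ c : ℝ, 0 < c ∧ ∃ X₀ : ℕ, ∀ X : ℕ, X₀ ≤ X →
      c * X / Real.sqrt (Real.log X) ≤ (((Finset.Icc 1 X).filter fun D => Class D).card : ℝ)) ∧
    (∀ D : ℕ, Class D → (TrivialThree D ↔ NoSplit D)) ∧
    (∀ D : ℕ, Class D → TrivialThree D → NonzeroL D) ∧
    (0.56 : ℝ) < ∏' i : ℕ, (1 - (1 / 3 : ℝ) ^ (i + 1)) ∧
    Filter.Tendsto (fun X : ℕ =>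
        (((Finset.Icc 1 X).filter fun D => Class D ∧ TrivialThree D).card : ℝ) /
        (((Finset.Icc 1 X).filter fun D => Class D).card : ℝ)) Filter.atTop
      (nhds (∏' i : ℕ, (1 - (1 / 3 : ℝ) ^ (i + 1)))) := by
  have hcrit : ∀ D : ℕ, Class D → (TrivialThree D ↔ NoSplit D) := by
    intro D hC
    have hC' := (class_iff D).1 hC
    obtain ⟨-, f, -, u, -, -, -, h2⟩ := Pool.Agent.Y703.CT.fin_all hC'
    exact (three_iff D).trans h2
  have e2 : ∀ X : ℕ, (Finset.Icc 1 X).filter (fun D => Class D) =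
      (Finset.Icc 1 X).filter fun D => Pool.Agent.Y703.CT.Cls D := by
    intro X
    refine Finset.filter_congr fun D _ => ?_
    rw [class_iff]
  refine ⟨?_, hcrit, ?_, Pool.Agent.Y461.CX.t_C3.2.2.2, ?_⟩
  · simp only [e2]
    exact Pool.Agent.R419.CF.low
  · intro D hC hN
    exact (Pool.Agent.R419.CF.weak ((class_iff D).1 hC) ((hcrit D hC).1 hN)).1
  · have h := Pool.Agent.R419.CF.t_FIN
    unfold Pool.Agent.Y703.CX.c3 at h
    have e1 : ∀ X : ℕ, (Finset.Icc 1 X).filter (fun D => Class D ∧ TrivialThree D) =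
        (Finset.Icc 1 X).filter fun D => Pool.Agent.Y703.CT.Cls D ∧
          Pool.Agent.Y703.CT.NoSplit D := by
      intro X
      refine Finset.filter_congr fun D _ => ?_
      rw [← class_iff]
      exact and_congr_right fun hC => hcrit D hC
    simp only [e1, e2]
    exact h

end Pool.Agent.Results.MP_e23604_nt.CubicTwistsCubeFree
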