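import Mathlib
import Pool.Agent.R421.EK.Fin

/-!
# The joint Gaussian law of the Tate-Shafarevich groups of the three 2-isogenous curves

The curve `y² = x (x - A) (x - B)` has three quotients by a point of order two. In every short square
of pairs `(A, B)` (of side `X`, at distance at most `X ^ L` from the origin) the three binary
logarithms of the numbers of the elements of order dividing `2 ^ j` of their Tate-Shafarevich groups
behave like three *independent* Gaussian variables of mean `(3 / 2) log log X` and variance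
`(5 / 2) log log X`.
-/

set_option autoImplicit false

namespace Pool.Agent.Results.MP_e23604_nt.JointErdosKac

open Finset WeierstrassCurve

open Pool.Agent.TH841.SH.D (Sha)

/-- the quotient of `y² = x (x - a) (x - b)` by its subgroup generated by `(0, 0)`: the curve
`y² = x³ + 2 (a + b) x² + (a - b)² x` -/
def Q (a b : ℤ) : WeierstrassCurve ℚ := ⟨0, 2 * ((a : ℚ) + b), 0, ((a : ℚ) - b) ^ 2, 0⟩

/-- the quotients of `y² = x (x - A) (x - B)` by the subgroups generated by `(0, 0)`, `(A, 0)`,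
`(B, 0)` -/
def E' (i : Fin 3) (A B : ℤ) : WeierstrassCurve ℚ := ![Q A B, Q (-A) (B - A), Q (-B) (A - B)] i

/-- the elements of the Tate-Shafarevich group killed by `2 ^ j` -/
def tor (W : WeierstrassCurve ℚ) (j : ℕ) : Set (Sha W) := {x | (2 ^ j) • x = 0}

/-- `log log X` -/
noncomputable def loglog (X : ℕ) : ℝ := Real.log (Real.log X)

/-- the normalised deviation of the binary logarithm of `#Ш(E' i A B)[2 ^ j]` -/
noncomputable def dev (X : ℕ) (j : ℕ) (i : Fin 3) (A B : ℤ) : ℝ :=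
  (Real.logb 2 (tor (E' i A B) j).ncard - 3 / 2 * loglog X) / √(5 / 2 * loglog X)

/-- the distribution function of the standard Gaussian measure -/
noncomputable def Φ (x : ℝ) : ℝ := (ProbabilityTheory.gaussianReal 0 1).real (Set.Iic x)

open Classical in
/-- **Theorem.** Let `j₀, j₁, j₂ ≥ 1` and `x₀, x₁, x₂` be real numbers. Among the `X ^ 2` pairs `(A, B)`
of integers with `N₁ < A ≤ N₁ + X`, `N₂ < B ≤ N₂ + X` the proportion of those for which the three
groups `Ш(E' i A B)[2 ^ jᵢ]` are finite and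
`log₂ #Ш(E' i A B)[2 ^ jᵢ] ≤ (3 / 2) log log X + xᵢ √((5 / 2) log log X)` for `i = 0, 1, 2` tends to
`Φ(x₀) Φ(x₁) Φ(x₂)` as `X → ∞`, uniformly in `|N₁|, |N₂| ≤ X ^ L`. -/
theorem result (L : ℕ) (j : Fin 3 → ℕ) (hj : ∀ i, 1 ≤ j i) (x : Fin 3 → ℝ) (ε : ℝ) (hε : 0 < ε) :
    ∃ X₀ : ℕ, ∀ (N₁ N₂ : ℤ) (X : ℕ), X₀ ≤ X → |N₁| ≤ (X : ℤ) ^ L → |N₂| ≤ (X : ℤ) ^ L →
      |(((Ioc N₁ (N₁ + (X : ℤ)) ×ˢ Ioc N₂ (N₂ + (X : ℤ))).filter (fun t : ℤ × ℤ =>
        ∀ i, (tor (E' i t.1 t.2) (j i)).Finite ∧ dev X (j i) i t.1 t.2 ≤ x i)).card : ℝ) /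
          (X : ℝ) ^ 2 - ∏ i, Φ (x i)| ≤ ε := by
  obtain ⟨X₀, h⟩ := Pool.Agent.R421.EK.ek_main L j hj x ε hε
  refine ⟨X₀, fun N₁ N₂ X hX hN₁ hN₂ => ?_⟩
  have e1 : N₁.natAbs ≤ X ^ L := by
    have : (N₁.natAbs : ℤ) ≤ (X : ℤ) ^ L := by rw [Int.natCast_natAbs]; exact hN₁
    exact_mod_cast this
  have e2 : N₂.natAbs ≤ X ^ L := by
    have : (N₂.natAbs : ℤ) ≤ (X : ℤ) ^ L := by rw [Int.natCast_natAbs]; exact hN₂
    exact_mod_cast this
  have hE : ∀ (i : Fin 3) (A B : ℤ), E' i A B = Pool.Agent.TH841.LS.WI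
      (Pool.Agent.Y676.IS.tri i A B).1 (Pool.Agent.Y676.IS.tri i A B).2 := by
    intro i A B
    fin_cases i <;> rfl
  refine h N₁ N₂ X hX e1 e2 _ fun t => ?_
  rw [mem_filter]
  have h1 : ∀ i, (tor (E' i t.1 t.2) (j i)).Finite ↔
      (Pool.Agent.R421.EK.To i (j i) t).Finite := by
    intro i
    rw [hE]
    rfl
  have h2 : ∀ i, dev X (j i) i t.1 t.2 = Pool.Agent.R421.EK.Ln j X t i := by
    intro i
    unfold dev
    rw [hE]
    rfl
  constructor
  · rintro ⟨k1, k2⟩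
    exact ⟨k1, fun i => (h1 i).1 (k2 i).1, fun i => by rw [← h2]; exact (k2 i).2⟩
  · rintro ⟨k1, k2, k3⟩
    exact ⟨k1, fun i => ⟨(h1 i).2 (k2 i), by rw [h2]; exact k3 i⟩⟩

end Pool.Agent.Results.MP_e23604_nt.JointErdosKac
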