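import Pool.Agent.R431.NO.Fin

/-!
# The normal order of the Tate-Shafarevich groups of the 2-isogenous curves

For almost all pairs `(A, B)` of integers in a square of side `X` (which may be very short: its
position is arbitrary up to a power of `X`) the curve `E : y² = x (x - A) (x - B)` has a bounded rank
and a bounded number of elements of order two in `Ш(E)`, while for its three quotients `E / ⟨T⟩`, `T` a
point of order two, the number of the elements of `Ш(E / ⟨T⟩)` killed by `2` is `2 ^ k` with `k`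
asymptotic to `(3 / 2) log log X`. The elements of order four, eight, … contribute only a bounded
number of cyclic factors.
-/

set_option autoImplicit false

namespace Pool.Agent.Results.MP_e23604_nt.NormalOrderIsogenous

open Finset WeierstrassCurve

open Pool.Agent.TH841.SH.D (Sha)

/-- the curve `y² = x (x - A) (x - B)` -/
def E (A B : ℤ) : WeierstrassCurve ℚ := ⟨0, -((A : ℚ) + B), 0, (A : ℚ) * B, 0⟩

/-- the quotient of `y² = x (x - a) (x - b)` by its subgroup generated by `(0, 0)`: the curve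
`y² = x³ + 2 (a + b) x² + (a - b)² x` -/
def Q (a b : ℤ) : WeierstrassCurve ℚ := ⟨0, 2 * ((a : ℚ) + b), 0, ((a : ℚ) - b) ^ 2, 0⟩

/-- the quotients of `E A B` by the subgroups generated by `(0, 0)`, `(A, 0)`, `(B, 0)` -/
def E' (i : Fin 3) (A B : ℤ) : WeierstrassCurve ℚ := ![Q A B, Q (-A) (B - A), Q (-B) (A - B)] i

/-- the elements of the Tate-Shafarevich group killed by `2 ^ j` -/
def tor (W : WeierstrassCurve ℚ) (j : ℕ) : Set (Sha W) := {x | (2 ^ j) • x = 0}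

/-- the rank of the group of the rational points -/
noncomputable def rank (W : WeierstrassCurve ℚ) : ℕ := Module.finrank ℤ W.toAffine.Point

/-- `log log X` -/
noncomputable def loglog (X : ℕ) : ℝ := Real.log (Real.log X)

/-- The pair `(A, B)` is typical. For `E = E A B`: `2 ^ (rank E) * #Ш(E)[2 ^ j] ^ (1 / j) ≤ 2 ^ R` for
all `j ≥ 1`. For each of the three curves `E' = E' i A B`: the rank is at most `R`; for all `j ≥ 1` the
binary logarithm of `#Ш(E')[2 ^ j]` is between `(3 / 2 - δ) log log X` and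
`(3 / 2 + δ) log log X + R j`, and `#(2 Ш(E')[2 ^ j]) ≤ 2 ^ (R j)`. -/
structure Typical (δ : ℝ) (R X : ℕ) (A B : ℤ) : Prop where
  ne : A ≠ 0 ∧ B ≠ 0 ∧ A ≠ B
  curve : ∀ j : ℕ, 1 ≤ j → (tor (E A B) j).Finite ∧
    2 ^ (rank (E A B) * j) * (tor (E A B) j).ncard ≤ 2 ^ (R * j)
  rank : ∀ i : Fin 3, rank (E' i A B) ≤ R
  finite : ∀ (i : Fin 3) (j : ℕ), 1 ≤ j → (tor (E' i A B) j).Finite
  lower : ∀ (i : Fin 3) (j : ℕ), 1 ≤ j →
    (3 / 2 - δ) * loglog X ≤ Real.logb 2 (tor (E' i A B) j).ncard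
  upper : ∀ (i : Fin 3) (j : ℕ), 1 ≤ j →
    Real.logb 2 (tor (E' i A B) j).ncard ≤ (3 / 2 + δ) * loglog X + R * j
  double : ∀ (i : Fin 3) (j : ℕ), 1 ≤ j →
    ((fun x => x + x) '' tor (E' i A B) j).ncard ≤ 2 ^ (R * j)

lemma typical_of {δ : ℝ} {R X : ℕ} {A B : ℤ} (h : ∀ i, Pool.Agent.R431.NO.OkS
      ((3 / 2 - δ) * Real.log (Real.log X)) ((3 / 2 + δ) * Real.log (Real.log X)) R
      (Pool.Agent.Y676.IS.tri i A B)) : Typical δ (R + 1) X A B := by
  obtain ⟨h1, h2, h3, h4, h5⟩ := Pool.Agent.R431.NO.typ h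
  have hE : ∀ i, E' i A B = Pool.Agent.TH841.LS.WI (Pool.Agent.Y676.IS.tri i A B).1
      (Pool.Agent.Y676.IS.tri i A B).2 := by
    intro i
    fin_cases i <;> rfl
  have hR : ∀ j : ℕ, 2 ^ (R * j) ≤ 2 ^ ((R + 1) * j) := fun j =>
    Nat.pow_le_pow_right two_pos (Nat.mul_le_mul_right _ (by omega))
  refine ⟨⟨h1, h2, h3⟩, fun j hj => ⟨(h4 j hj).1, (h4 j hj).2.trans (hR j)⟩, fun i => ?_,
    fun i j hj => ?_, fun i j hj => ?_, fun i j hj => ?_, fun i j hj => ?_⟩
  · rw [hE]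
    exact (h5 i).1.trans (by omega)
  · rw [hE]
    exact ((h5 i).2 j hj).1
  · rw [hE]
    exact ((h5 i).2 j hj).2.1
  · rw [hE]
    exact ((h5 i).2 j hj).2.2.1
  · rw [hE]
    have e : (fun x => x + x) '' tor (Pool.Agent.TH841.LS.WI (Pool.Agent.Y676.IS.tri i A B).1
        (Pool.Agent.Y676.IS.tri i A B).2) j =
        {y | ∃ x : Sha (Pool.Agent.TH841.LS.WI (Pool.Agent.Y676.IS.tri i A B).1
          (Pool.Agent.Y676.IS.tri i A B).2), (2 ^ j) • x = 0 ∧ y = x + x} := by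
      ext y
      constructor
      · rintro ⟨x, hx, rfl⟩
        exact ⟨x, hx, rfl⟩
      · rintro ⟨x, hx, rfl⟩
        exact ⟨x, hx, rfl⟩
    rw [e]
    exact ((h5 i).2 j hj).2.2.2.trans (hR j)

open Classical in
/-- **Theorem.** For all `δ, ε > 0` and `L` there are `R`, `X₀` such that for `X ≥ X₀` and
`|N₁|, |N₂| ≤ X ^ L` all the pairs `(A, B)` of integers `N₁ < A ≤ N₁ + X`, `N₂ < B ≤ N₂ + X` with at
most `ε X ^ 2` exceptions are typical: `E : y² = x (x - A) (x - B)` has a bounded rank and bounded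
`Ш(E)[2]`, and for its three quotients `E'` by a point of order two the number of the elements of
`Ш(E')` killed by `2` is `2 ^ k` with `k` asymptotic to `(3 / 2) log log X`. -/
theorem result (δ ε : ℝ) (L : ℕ) (hδ : 0 < δ) (hε : 0 < ε) : ∃ R X₀ : ℕ,
    ∀ (N₁ N₂ : ℤ) (X : ℕ), X₀ ≤ X → |N₁| ≤ (X : ℤ) ^ L → |N₂| ≤ (X : ℤ) ^ L →
      (((Ioc N₁ (N₁ + (X : ℤ)) ×ˢ Ioc N₂ (N₂ + (X : ℤ))).filter (fun t : ℤ × ℤ =>
        ¬ Typical δ R X t.1 t.2)).card : ℝ) ≤ ε * X ^ 2 := by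
  obtain ⟨R, X₀, h⟩ := Pool.Agent.R431.NO.allshort δ ε L hδ hε
  refine ⟨R + 1, X₀, fun N₁ N₂ X hX hN₁ hN₂ => ?_⟩
  have e1 : N₁.natAbs ≤ X ^ L := by
    have : (N₁.natAbs : ℤ) ≤ (X : ℤ) ^ L := by rw [Int.natCast_natAbs]; exact hN₁
    exact_mod_cast this
  have e2 : N₂.natAbs ≤ X ^ L := by
    have : (N₂.natAbs : ℤ) ≤ (X : ℤ) ^ L := by rw [Int.natCast_natAbs]; exact hN₂
    exact_mod_cast this
  obtain ⟨T, hT1, hT2⟩ := h N₁ N₂ X hX e1 e2
  refine le_trans (Nat.cast_le.2 (card_le_card (t := T) fun t ht => ?_)) hT1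
  rw [mem_filter] at ht
  by_contra hn
  exact ht.2 (typical_of (hT2 t ht.1 hn))

end Pool.Agent.Results.MP_e23604_nt.NormalOrderIsogenous
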